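import Pool.Agent.H81.RZ.Mat

/-!
# Properties which pass to open subschemes and from `X × 𝔾_m` to `X`

The functors of points of `Pool.Agent.H81.RZ` are used.
-/

set_option autoImplicit false

open CategoryTheory AlgebraicGeometry Pool.Agent.Y116.UV Pool.Agent.H81.RZ

namespace Pool.Agent.H43.PG

/-- The property `P` passes from `X` to the complement of a closed subscheme, and from
`X × 𝔾_m` to `X` for affine schemes `X`. -/
structure Op {R : Type} [CommRing R] (sep : Prop) (P : Sch R → Prop) : Prop where
  iso : ∀ {X Y : Sch R}, FT sep X → Nonempty (X ≅ Y) → P X → P Y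
  opened : ∀ {Z X U : Sch R} (i : Z ⟶ X) (j : U ⟶ X), FT sep X → IsTriple i j → P X → P U
  torus : ∀ (A : Type) [CommRing A] [Algebra R A] [Algebra.FiniteType R A],
    P (aff R (LaurentPolynomial A)) → P (aff R A)

variable {R : Type} [CommRing R] {sep : Prop} {P : Sch R → Prop}

lemma Op.alg (hP : Op sep P) {A B : Type} [CommRing A] [CommRing B] [Algebra R A] [Algebra R B]
    [Algebra.FiniteType R A] (e : A ≃ₐ[R] B) (h : P (aff R A)) : P (aff R B) :=
  hP.iso (ft_aff sep) ⟨(affIso e).symm⟩ h

section

variable {σ : Type} {S : Pts R σ}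

lemma Op.of_rep (hP : Op sep P) (h : Hol P S) {B : Type} [CommRing B] [Algebra R B] {b : σ → B}
    (hB : Rep S B b) : P (aff R B) := by
  obtain ⟨A, i1, i2, i3, a, h1, h2⟩ := h
  obtain ⟨e⟩ := h1.iso hB
  exact hP.alg e h2

lemma Op.opn (hP : Op sep P) (e : Fn S) (h : Hol P S) : Hol P (S.opn e) := by
  obtain ⟨A, i1, i2, i3, a, h1, h2⟩ := h
  have h4 : Algebra.FiniteType R (Localization.Away (e.val A a)) :=
    Algebra.FiniteType.trans (S := A) inferInstance inferInstance
  exact ⟨_, inferInstance, inferInstance, h4, _, h1.opn e,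
    hP.opened _ _ (ft_aff sep) (triple_away (e.val A a)) h2⟩

lemma Op.of_gm (hP : Op sep P) (hS : Repr S) (h : Hol P S.gm) : Hol P S := by
  obtain ⟨A, i1, i2, i3, a, h1, -⟩ := hS
  exact ⟨A, i1, i2, i3, a, h1, hP.torus A (hP.of_rep h h1.gm)⟩

/-- the open part where all functions of a family are invertible -/
def opnFam (S : Pts R σ) {ν : Type} (f : ν → Fn S) : Pts R σ where
  pts C _ _ p := S.pts C p ∧ ∀ l, IsUnit ((f l).val C p)
  map g p h := ⟨S.map g h.1, fun l => by rw [← (f l).nat g p h.1]; exact (h.2 l).map g⟩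

/-- the product of a family of functions -/
noncomputable def prodFn {ν : Type} [Fintype ν] (f : ν → Fn S) : Fn S where
  val C _ _ p := ∏ l, (f l).val C p
  nat {C D} _ _ _ _ g p h := by
    rw [map_prod]
    exact Finset.prod_congr rfl fun l _ => (f l).nat g p h

lemma isUnit_prod_iff' {ν C : Type} [Fintype ν] [CommRing C] (g : ν → C) :
    IsUnit (∏ l, g l) ↔ ∀ l, IsUnit (g l) := by
  classical
  constructor
  · intro h l
    exact isUnit_of_dvd_unit (Finset.dvd_prod_of_mem g (Finset.mem_univ l)) h
  · intro h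
    have : ∀ s : Finset ν, IsUnit (∏ l ∈ s, g l) := by
      intro s
      induction s using Finset.induction_on with
      | empty => simp
      | insert a s ha ih =>
        rw [Finset.prod_insert ha]
        exact (h a).mul ih
    exact this _

lemma Op.opnFam (hP : Op sep P) {ν : Type} [Finite ν] (f : ν → Fn S) (h : Hol P S) :
    Hol P (opnFam S f) := by
  have : Fintype ν := Fintype.ofFinite ν
  refine Hol.congr (fun C _ _ p => ?_) (hP.opn (prodFn f) h)
  constructor
  · rintro ⟨h1, h2⟩
    exact ⟨h1, (isUnit_prod_iff' _).mp h2⟩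
  · rintro ⟨h1, h2⟩
    exact ⟨h1, (isUnit_prod_iff' _).mpr h2⟩

/-- the product with a torus -/
def tor (S : Pts R σ) (τ : Type) : Pts R (σ ⊕ τ) where
  pts C _ _ p := S.pts C (fun s => p (.inl s)) ∧ ∀ t, IsUnit (p (.inr t))
  map f _ h := ⟨S.map f h.1, fun t => (h.2 t).map f⟩

lemma bij_tor_equiv (S : Pts R σ) {τ τ' : Type} (e : τ ≃ τ') :
    Bij (tor S τ) (tor S τ') (fun _ _ _ p x => p (Sum.map id e.symm x))
      (fun _ _ _ p x => p (Sum.map id e x)) where
  natF _ _ _ _ := rfl
  natG _ _ _ _ := rfl
  memF C _ _ p h := ⟨h.1, fun t => h.2 (e.symm t)⟩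
  memG C _ _ p h := ⟨h.1, fun t => h.2 (e t)⟩
  GF C _ _ p _ := by
    funext x
    rcases x with s | t
    · rfl
    · exact congrArg (fun t => p (.inr t)) (e.symm_apply_apply t)
  FG C _ _ p _ := by
    funext x
    rcases x with s | t
    · rfl
    · exact congrArg (fun t => p (.inr t)) (e.apply_symm_apply t)

lemma bij_tor_option (S : Pts R σ) (τ : Type) :
    Bij (tor S τ).gm (tor S (Option τ))
      (fun _ _ _ p x => match x with
        | .inl s => p (some (.inl s))
        | .inr none => p none
        | .inr (some t) => p (some (.inr t)))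
      (fun _ _ _ p x => match x with
        | none => p (.inr none)
        | some (.inl s) => p (.inl s)
        | some (.inr t) => p (.inr (some t))) where
  natF f p _ x := by
    rcases x with s | _ | t <;> rfl
  natG f p _ x := by
    rcases x with _ | s | t <;> rfl
  memF C _ _ p h := ⟨h.1.1, fun t => by
    rcases t with _ | t
    · exact h.2
    · exact h.1.2 t⟩
  memG C _ _ p h := ⟨⟨h.1, fun t => h.2 (some t)⟩, h.2 none⟩
  GF C _ _ p _ := by
    funext x
    rcases x with _ | s | t <;> rfl
  FG C _ _ p _ := by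
    funext x
    rcases x with s | _ | t <;> rfl

lemma bij_tor_empty (S : Pts R σ) :
    Bij (tor S PEmpty) S (fun _ _ _ p s => p (.inl s))
      (fun _ _ _ p x => Sum.elim p (fun t => PEmpty.elim t) x) where
  natF _ _ _ _ := rfl
  natG f p _ x := by
    rcases x with s | t
    · rfl
    · exact PEmpty.elim t
  memF C _ _ p h := h.1
  memG C _ _ p h := ⟨h, fun t => PEmpty.elim t⟩
  GF C _ _ p _ := by
    funext x
    rcases x with s | t
    · rfl
    · exact PEmpty.elim t
  FG C _ _ p _ := rfl

lemma bij_symm {τ : Type} {S : Pts R σ} {T : Pts R τ}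
    {F : ∀ (C : Type) [CommRing C] [Algebra R C], (σ → C) → (τ → C)}
    {G : ∀ (C : Type) [CommRing C] [Algebra R C], (τ → C) → (σ → C)} (h : Bij S T F G) :
    Bij T S G F where
  natF := h.natG
  natG := h.natF
  memF := h.memG
  memG := h.memF
  GF := h.FG
  FG := h.GF

lemma Rep.repr {A : Type} [CommRing A] [Algebra R A] [Algebra.FiniteType R A] {a : σ → A}
    (h : Rep S A a) : Repr S :=
  ⟨A, inferInstance, inferInstance, inferInstance, a, h, trivial⟩

lemma repr_gm (h : Repr S) : Repr S.gm := by
  obtain ⟨A, i1, i2, i3, a, h1, -⟩ := h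
  have h4 : Algebra.FiniteType R (LaurentPolynomial A) :=
    Algebra.FiniteType.trans (S := A) inferInstance inferInstance
  exact ⟨_, inferInstance, inferInstance, h4, _, h1.gm, trivial⟩

lemma repr_tor (hS : Repr S) (τ : Type) [Finite τ] : Repr (tor S τ) := by
  induction τ using Finite.induction_empty_option with
  | of_equiv e h => exact h.trans (bij_tor_equiv S e)
  | h_empty => exact hS.trans (bij_symm (bij_tor_empty S))
  | h_option h => exact (repr_gm h).trans (bij_tor_option S _)

lemma Op.of_tor (hP : Op sep P) (hS : Repr S) (τ : Type) [Finite τ] (h : Hol P (tor S τ)) :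
    Hol P S := by
  induction τ using Finite.induction_empty_option with
  | of_equiv e ih => exact ih (h.trans (bij_symm (bij_tor_equiv S e)))
  | h_empty => exact h.trans (bij_tor_empty S)
  | h_option ih => exact ih (hP.of_gm (repr_tor hS _) (h.trans (bij_symm (bij_tor_option S _))))

/-- **The main step.** If `T × 𝔾_m ^ τ` is the open part of `S` where some functions are invertible,
then `P` passes from `S` to `T`. -/
theorem Op.step (hP : Op sep P) {σ' : Type} {T : Pts R σ'} (hT : Repr T) (τ : Type) [Finite τ]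
    {ν : Type} [Finite ν] (f : ν → Fn S)
    {F : ∀ (C : Type) [CommRing C] [Algebra R C], (σ → C) → (σ' ⊕ τ → C)}
    {G : ∀ (C : Type) [CommRing C] [Algebra R C], (σ' ⊕ τ → C) → (σ → C)}
    (hb : Bij (PG.opnFam S f) (tor T τ) F G) (h : Hol P S) : Hol P T :=
  hP.of_tor hT τ ((hP.opnFam f h).trans hb)

end

/-- coordinates -/
def crd {σ : Type} {S : Pts R σ} (s : σ) : Fn S where
  val _ _ _ p := p s
  nat _ _ _ := rfl

end Pool.Agent.H43.PG
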