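import Pool.Agent.H81.RZ.Inv
import Pool.Agent.H43.PG.Op

/-!
# Products of two matrices with prescribed zeros and some prescribed zeros of the product
-/

set_option autoImplicit false

open CategoryTheory AlgebraicGeometry MvPolynomial Pool.Agent.Y116.UV Pool.Agent.H81.RZ

namespace Pool.Agent.H43.PG

variable {R : Type} [CommRing R] {sep : Prop} {P : Sch R → Prop}

/-- the affine space is representable -/
lemma repr_space (σ : Type) [Finite σ] : Repr (zer (∅ : Set (MvPolynomial σ R))) :=
  ⟨_, inferInstance, inferInstance, inferInstance, _, rep_zer _, trivial⟩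

/-- A system of points given by equations is representable. -/
lemma repr_of_eqs {σ ν : Type} [Finite σ] {S : Pts R σ}
    (f : ν → Fn (zer (∅ : Set (MvPolynomial σ R))))
    (h : ∀ (C : Type) [CommRing C] [Algebra R C] (p : σ → C),
      S.pts C p ↔ ∀ l, (f l).val C p = 0) : Repr S :=
  Hol.congr (S := cloFam f) (fun C _ _ p => by
    rw [h C p]
    exact ⟨fun h1 => h1.2, fun h1 => ⟨fun g hg => absurd hg (Set.notMem_empty g), h1⟩⟩)
    (repr_cloFam f (repr_space σ))

/-- the support of the first factor, the support of the second factor, the zeros of the product -/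
structure Dat (U M W : Type) where
  α : U → M → Prop
  β : M → W → Prop
  ε : U → W → Prop

variable {U M W : Type} [Fintype M]

/-- two matrices with prescribed zeros and some prescribed zeros of the product -/
def pz (R : Type) [CommRing R] (D : Dat U M W) : Pts R ((U × M) ⊕ (M × W)) where
  pts _ _ _ p := (∀ u m, ¬ D.α u m → p (.inl (u, m)) = 0) ∧
    (∀ m w, ¬ D.β m w → p (.inr (m, w)) = 0) ∧
    ∀ u w, D.ε u w → ∑ m, p (.inl (u, m)) * p (.inr (m, w)) = 0
  map f p h := ⟨fun u m hu => (congrArg f (h.1 u m hu)).trans (map_zero f),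
    fun m w hu => (congrArg f (h.2.1 m w hu)).trans (map_zero f), fun u w hu => by
      have h1 := congrArg f (h.2.2 u w hu)
      rw [map_sum, map_zero] at h1
      rw [← h1]
      exact Finset.sum_congr rfl fun m _ => (map_mul f _ _).symm⟩

/-- the same with some entries equal to one -/
def npz (R : Type) [CommRing R] (D : Dat U M W) (ζ : W → Prop) (l : U → M) (t : W → M) :
    Pts R ((U × M) ⊕ (M × W)) where
  pts C _ _ p := (pz R D).pts C p ∧ (∀ w, ζ w → ∑ m, p (.inr (m, w)) = 0) ∧
    (∀ u, p (.inl (u, l u)) = 1) ∧ ∀ w, p (.inr (t w, w)) = 1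
  map f p h := ⟨(pz R D).map f h.1, fun w hw => by
      have h1 := congrArg f (h.2.1 w hw)
      rwa [map_sum, map_zero] at h1,
    fun u => (congrArg f (h.2.2.1 u)).trans (map_one f),
    fun u => (congrArg f (h.2.2.2 u)).trans (map_one f)⟩

/-- one more row, without zeros -/
def Dat.up (D : Dat U M W) (ζ : W → Prop) : Dat (Option U) M W where
  α u m := match u with
    | none => True
    | some u => D.α u m
  β := D.β
  ε u w := match u with
    | none => ζ w
    | some u => D.ε u w

/-- the equations -/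
def npzEqs (R : Type) [CommRing R] (D : Dat U M W) (ζ : W → Prop) (l : U → M) (t : W → M) :
    ({x : U × M // ¬ D.α x.1 x.2} ⊕ {x : M × W // ¬ D.β x.1 x.2} ⊕ {x : U × W // D.ε x.1 x.2} ⊕
      {w // ζ w} ⊕ U ⊕ W) → Fn (zer (∅ : Set (MvPolynomial ((U × M) ⊕ (M × W)) R)))
  | .inl x => ⟨fun _ _ _ p => p (.inl x.1), fun _ _ _ => rfl⟩
  | .inr (.inl x) => ⟨fun _ _ _ p => p (.inr x.1), fun _ _ _ => rfl⟩
  | .inr (.inr (.inl x)) => ⟨fun _ _ _ p => ∑ m, p (.inl (x.1.1, m)) * p (.inr (m, x.1.2)),
      fun f p _ => by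
        rw [map_sum]
        exact Finset.sum_congr rfl fun m _ => map_mul f _ _⟩
  | .inr (.inr (.inr (.inl x))) => ⟨fun _ _ _ p => ∑ m, p (.inr (m, x.1)),
      fun f p _ => map_sum f _ _⟩
  | .inr (.inr (.inr (.inr (.inl u)))) => ⟨fun _ _ _ p => p (.inl (u, l u)) - 1,
      fun f p _ => by rw [map_sub, map_one]⟩
  | .inr (.inr (.inr (.inr (.inr w)))) => ⟨fun _ _ _ p => p (.inr (t w, w)) - 1,
      fun f p _ => by rw [map_sub, map_one]⟩

lemma repr_npz [Finite U] [Finite W] (D : Dat U M W) (ζ : W → Prop) (l : U → M) (t : W → M) :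
    Repr (npz R D ζ l t) := by
  refine repr_of_eqs (npzEqs R D ζ l t) fun C _ _ p => ?_
  constructor
  · rintro ⟨⟨h1, h2, h3⟩, h4, h5, h6⟩
    rintro (x | x | x | x | u | w)
    · exact h1 _ _ x.2
    · exact h2 _ _ x.2
    · exact h3 _ _ x.2
    · exact h4 _ x.2
    · exact sub_eq_zero.mpr (h5 u)
    · exact sub_eq_zero.mpr (h6 w)
  · intro h
    exact ⟨⟨fun u m hu => h (.inl ⟨(u, m), hu⟩), fun m w hu => h (.inr (.inl ⟨(m, w), hu⟩)),
      fun u w hu => h (.inr (.inr (.inl ⟨(u, w), hu⟩)))⟩,
      fun w hw => h (.inr (.inr (.inr (.inl ⟨w, hw⟩)))),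
      fun u => sub_eq_zero.mp (h (.inr (.inr (.inr (.inr (.inl u)))))),
      fun w => sub_eq_zero.mp (h (.inr (.inr (.inr (.inr (.inr w))))))⟩

/-- the equations -/
def pzEqs (R : Type) [CommRing R] (D : Dat U M W) :
    ({x : U × M // ¬ D.α x.1 x.2} ⊕ {x : M × W // ¬ D.β x.1 x.2} ⊕ {x : U × W // D.ε x.1 x.2}) →
      Fn (zer (∅ : Set (MvPolynomial ((U × M) ⊕ (M × W)) R)))
  | .inl x => ⟨fun _ _ _ p => p (.inl x.1), fun _ _ _ => rfl⟩
  | .inr (.inl x) => ⟨fun _ _ _ p => p (.inr x.1), fun _ _ _ => rfl⟩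
  | .inr (.inr x) => ⟨fun _ _ _ p => ∑ m, p (.inl (x.1.1, m)) * p (.inr (m, x.1.2)),
      fun f p _ => by
        rw [map_sum]
        exact Finset.sum_congr rfl fun m _ => map_mul f _ _⟩

lemma repr_pz [Finite U] [Finite W] (D : Dat U M W) : Repr (pz R D) := by
  refine repr_of_eqs (pzEqs R D) fun C _ _ p => ?_
  constructor
  · rintro ⟨h1, h2, h3⟩
    rintro (x | x | x)
    · exact h1 _ _ x.2
    · exact h2 _ _ x.2
    · exact h3 _ _ x.2
  · intro h
    exact ⟨fun u m hu => h (.inl ⟨(u, m), hu⟩), fun m w hu => h (.inr (.inl ⟨(m, w), hu⟩)),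
      fun u w hu => h (.inr (.inr ⟨(u, w), hu⟩))⟩

section scale

variable {C : Type} [CommRing C]

/-- shorthand -/
noncomputable abbrev iv (x : C) : C := Ring.inverse x

lemma mul_iv {x : C} (h : IsUnit x) : x * iv x = 1 := Ring.mul_inverse_cancel x h

lemma iv_unit {x : C} (h : IsUnit x) : IsUnit (iv x) := by
  obtain ⟨u, rfl⟩ := h
  rw [iv, Ring.inverse_unit]
  exact Units.isUnit _

lemma iv_nat {D : Type} [CommRing D] (f : C →+* D) {x : C} (h : IsUnit x) :
    f (iv x) = iv (f x) := map_inverse_of_isUnit f h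

end scale

/-- the functions that have to be invertible -/
def lead (D : Dat U M W) (ζ : W → Prop) (l : U → M) (t : W → M) :
    (M ⊕ (U ⊕ W)) → Fn (pz R (D.up ζ))
  | .inl m => crd (.inl (none, m))
  | .inr (.inl u) => crd (.inl (some u, l u))
  | .inr (.inr w) => crd (.inr (t w, w))

/-- the normalised matrices -/
noncomputable def nF (l : U → M) (t : W → M) {C : Type} [CommRing C]
    (p : (Option U × M) ⊕ (M × W) → C) : ((U × M) ⊕ (M × W)) ⊕ (M ⊕ (U ⊕ W)) → C
  | .inl (.inl (u, m)) => p (.inl (some u, m)) * iv (p (.inl (none, m))) *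
      (p (.inl (none, l u)) * iv (p (.inl (some u, l u))))
  | .inl (.inr (m, w)) => p (.inr (m, w)) * p (.inl (none, m)) *
      (iv (p (.inr (t w, w))) * iv (p (.inl (none, t w))))
  | .inr (.inl m) => p (.inl (none, m))
  | .inr (.inr (.inl u)) => p (.inl (some u, l u))
  | .inr (.inr (.inr w)) => p (.inr (t w, w))

/-- the matrices from the normalised ones -/
noncomputable def nG (l : U → M) (t : W → M) {C : Type} [CommRing C]
    (q : ((U × M) ⊕ (M × W)) ⊕ (M ⊕ (U ⊕ W)) → C) : (Option U × M) ⊕ (M × W) → C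
  | .inl (none, m) => q (.inr (.inl m))
  | .inl (some u, m) => q (.inl (.inl (u, m))) * q (.inr (.inl m)) *
      (q (.inr (.inr (.inl u))) * iv (q (.inr (.inl (l u)))))
  | .inr (m, w) => q (.inl (.inr (m, w))) * iv (q (.inr (.inl m))) *
      (q (.inr (.inr (.inr w))) * q (.inr (.inl (t w))))

lemma bij_norm (D : Dat U M W) (ζ : W → Prop) (l : U → M) (t : W → M) :
    Bij (opnFam (pz R (D.up ζ)) (lead D ζ l t)) (tor (npz R D ζ l t) (M ⊕ (U ⊕ W)))
      (fun _ _ _ p => nF l t p) (fun _ _ _ q => nG l t q) where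
  natF {C C'} _ _ _ _ f p h x := by
    have hm : ∀ m, IsUnit (p (.inl (none, m))) := fun m => h.2 (.inl m)
    have hu : ∀ u, IsUnit (p (.inl (some u, l u))) := fun u => h.2 (.inr (.inl u))
    have hw : ∀ w, IsUnit (p (.inr (t w, w))) := fun w => h.2 (.inr (.inr w))
    have f1 : ∀ x : C, IsUnit x → f (iv x) = iv (f x) := fun x hx => iv_nat (f : C →+* C') hx
    rcases x with (⟨u, m⟩ | ⟨m, w⟩) | m | u | w
    · simp only [nF, map_mul, f1 _ (hm _), f1 _ (hu _)]
    · simp only [nF, map_mul, f1 _ (hm _), f1 _ (hw _)]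
    · rfl
    · rfl
    · rfl
  natG {C C'} _ _ _ _ f q h x := by
    have hm : ∀ m, IsUnit (q (.inr (.inl m))) := fun m => h.2 (.inl m)
    have f1 : ∀ x : C, IsUnit x → f (iv x) = iv (f x) := fun x hx => iv_nat (f : C →+* C') hx
    rcases x with ⟨_ | u, m⟩ | ⟨m, w⟩
    · rfl
    · simp only [nG, map_mul, f1 _ (hm _)]
    · simp only [nG, map_mul, f1 _ (hm _)]
  memF C _ _ p h := by
    have hm : ∀ m, IsUnit (p (.inl (none, m))) := fun m => h.2 (.inl m)
    have hu : ∀ u, IsUnit (p (.inl (some u, l u))) := fun u => h.2 (.inr (.inl u))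
    have hw : ∀ w, IsUnit (p (.inr (t w, w))) := fun w => h.2 (.inr (.inr w))
    obtain ⟨⟨h1, h2, h3⟩, -⟩ := h
    refine ⟨⟨⟨fun u m hum => ?_, fun m w hmw => ?_, fun u w huw => ?_⟩, fun w hw' => ?_,
      fun u => ?_, fun w => ?_⟩, ?_⟩
    · simp only [nF]
      rw [h1 (some u) m hum, zero_mul, zero_mul]
    · simp only [nF]
      rw [h2 m w hmw, zero_mul, zero_mul]
    · simp only [nF]
      have h4 : ∀ m, p (.inl (some u, m)) * iv (p (.inl (none, m))) *
          (p (.inl (none, l u)) * iv (p (.inl (some u, l u)))) *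
          (p (.inr (m, w)) * p (.inl (none, m)) *
          (iv (p (.inr (t w, w))) * iv (p (.inl (none, t w))))) =
          p (.inl (some u, m)) * p (.inr (m, w)) *
          ((p (.inl (none, l u)) * iv (p (.inl (some u, l u)))) *
          (iv (p (.inr (t w, w))) * iv (p (.inl (none, t w))))) := by
        intro m
        have h5 := mul_iv (hm m)
        linear_combination (p (.inl (some u, m)) * p (.inr (m, w)) *
          ((p (.inl (none, l u)) * iv (p (.inl (some u, l u)))) *
          (iv (p (.inr (t w, w))) * iv (p (.inl (none, t w)))))) * h5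
      rw [Finset.sum_congr rfl fun m _ => h4 m, ← Finset.sum_mul, h3 (some u) w huw, zero_mul]
    · simp only [nF]
      have h4 : ∀ m, p (.inr (m, w)) * p (.inl (none, m)) *
          (iv (p (.inr (t w, w))) * iv (p (.inl (none, t w)))) =
          p (.inl (none, m)) * p (.inr (m, w)) *
          (iv (p (.inr (t w, w))) * iv (p (.inl (none, t w)))) := fun m => by ring
      rw [Finset.sum_congr rfl fun m _ => h4 m, ← Finset.sum_mul, h3 none w hw', zero_mul]
    · simp only [nF]
      have h5 := mul_iv (hm (l u))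
      have h6 := mul_iv (hu u)
      linear_combination (p (.inl (some u, l u)) * iv (p (.inl (some u, l u)))) * h5 + h6
    · simp only [nF]
      have h5 := mul_iv (hm (t w))
      have h6 := mul_iv (hw w)
      linear_combination (p (.inr (t w, w)) * iv (p (.inr (t w, w)))) * h5 + h6
    · rintro (m | u | w)
      · exact hm m
      · exact hu u
      · exact hw w
  memG C _ _ q h := by
    have hm : ∀ m, IsUnit (q (.inr (.inl m))) := fun m => h.2 (.inl m)
    have hu : ∀ u, IsUnit (q (.inr (.inr (.inl u)))) := fun u => h.2 (.inr (.inl u))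
    have hw : ∀ w, IsUnit (q (.inr (.inr (.inr w)))) := fun w => h.2 (.inr (.inr w))
    obtain ⟨⟨⟨h1, h2, h3⟩, h4, h5, h6⟩, -⟩ := h
    beta_reduce at h1 h2 h3 h4 h5 h6
    refine ⟨⟨fun u m hum => ?_, fun m w hmw => ?_, fun u w huw => ?_⟩, ?_⟩
    · rcases u with _ | u
      · exact absurd trivial hum
      · simp only [nG]
        rw [h1 u m hum, zero_mul, zero_mul]
    · simp only [nG]
      rw [h2 m w hmw, zero_mul, zero_mul]
    · rcases u with _ | u
      · simp only [nG]
        have h7 : ∀ m, q (.inr (.inl m)) * (q (.inl (.inr (m, w))) * iv (q (.inr (.inl m))) *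
            (q (.inr (.inr (.inr w))) * q (.inr (.inl (t w))))) = q (.inl (.inr (m, w))) *
            (q (.inr (.inr (.inr w))) * q (.inr (.inl (t w)))) := by
          intro m
          have h5 := mul_iv (hm m)
          linear_combination (q (.inl (.inr (m, w))) *
            (q (.inr (.inr (.inr w))) * q (.inr (.inl (t w))))) * h5
        rw [Finset.sum_congr rfl fun m _ => h7 m, ← Finset.sum_mul, h4 w huw, zero_mul]
      · simp only [nG]
        have h7 : ∀ m, q (.inl (.inl (u, m))) * q (.inr (.inl m)) *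
            (q (.inr (.inr (.inl u))) * iv (q (.inr (.inl (l u))))) *
            (q (.inl (.inr (m, w))) * iv (q (.inr (.inl m))) *
            (q (.inr (.inr (.inr w))) * q (.inr (.inl (t w))))) =
            q (.inl (.inl (u, m))) * q (.inl (.inr (m, w))) *
            ((q (.inr (.inr (.inl u))) * iv (q (.inr (.inl (l u))))) *
            (q (.inr (.inr (.inr w))) * q (.inr (.inl (t w))))) := by
          intro m
          have h5 := mul_iv (hm m)
          linear_combination (q (.inl (.inl (u, m))) * q (.inl (.inr (m, w))) *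
            ((q (.inr (.inr (.inl u))) * iv (q (.inr (.inl (l u))))) *
            (q (.inr (.inr (.inr w))) * q (.inr (.inl (t w)))))) * h5
        rw [Finset.sum_congr rfl fun m _ => h7 m, ← Finset.sum_mul, h3 u w huw, zero_mul]
    · rintro (m | u | w)
      · exact hm m
      · change IsUnit (q (.inl (.inl (u, l u))) * q (.inr (.inl (l u))) *
          (q (.inr (.inr (.inl u))) * iv (q (.inr (.inl (l u))))))
        rw [h5 u, one_mul]
        exact (hm _).mul ((hu u).mul (iv_unit (hm _)))
      · change IsUnit (q (.inl (.inr (t w, w))) * iv (q (.inr (.inl (t w)))) *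
          (q (.inr (.inr (.inr w))) * q (.inr (.inl (t w)))))
        rw [h6 w, one_mul]
        exact (iv_unit (hm _)).mul ((hw w).mul (hm _))
  GF C _ _ p h := by
    have hm : ∀ m, IsUnit (p (.inl (none, m))) := fun m => h.2 (.inl m)
    have hu : ∀ u, IsUnit (p (.inl (some u, l u))) := fun u => h.2 (.inr (.inl u))
    have hw : ∀ w, IsUnit (p (.inr (t w, w))) := fun w => h.2 (.inr (.inr w))
    funext x
    rcases x with ⟨_ | u, m⟩ | ⟨m, w⟩
    · rfl
    · simp only [nG, nF]
      have h5 := mul_iv (hm m)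
      have h6 := mul_iv (hu u)
      have h7 := mul_iv (hm (l u))
      linear_combination (p (.inl (some u, m)) *
        (p (.inl (some u, l u)) * iv (p (.inl (some u, l u)))) *
        (p (.inl (none, l u)) * iv (p (.inl (none, l u))))) * h5 + (p (.inl (some u, m)) *
        (p (.inl (none, l u)) * iv (p (.inl (none, l u))))) * h6 + p (.inl (some u, m)) * h7
    · simp only [nG, nF]
      have h5 := mul_iv (hm m)
      have h6 := mul_iv (hw w)
      have h7 := mul_iv (hm (t w))
      linear_combination (p (.inr (m, w)) *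
        (p (.inr (t w, w)) * iv (p (.inr (t w, w)))) *
        (p (.inl (none, t w)) * iv (p (.inl (none, t w))))) * h5 + (p (.inr (m, w)) *
        (p (.inl (none, t w)) * iv (p (.inl (none, t w))))) * h6 + p (.inr (m, w)) * h7
  FG C _ _ q h := by
    have hm : ∀ m, IsUnit (q (.inr (.inl m))) := fun m => h.2 (.inl m)
    have hu : ∀ u, IsUnit (q (.inr (.inr (.inl u)))) := fun u => h.2 (.inr (.inl u))
    have hw : ∀ w, IsUnit (q (.inr (.inr (.inr w)))) := fun w => h.2 (.inr (.inr w))
    obtain ⟨⟨⟨h1, h2, h3⟩, h4, h5, h6⟩, -⟩ := h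
    beta_reduce at h1 h2 h3 h4 h5 h6
    have e1 : ∀ u, q (.inl (.inl (u, l u))) * q (.inr (.inl (l u))) *
        (q (.inr (.inr (.inl u))) * iv (q (.inr (.inl (l u))))) = q (.inr (.inr (.inl u))) := by
      intro u
      have h8 := mul_iv (hm (l u))
      have h9 : q (.inl (.inl (u, l u))) = 1 := h5 u
      rw [h9]
      linear_combination q (.inr (.inr (.inl u))) * h8
    have e2 : ∀ w, q (.inl (.inr (t w, w))) * iv (q (.inr (.inl (t w)))) *
        (q (.inr (.inr (.inr w))) * q (.inr (.inl (t w)))) = q (.inr (.inr (.inr w))) := by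
      intro w
      have h8 := mul_iv (hm (t w))
      have h9 : q (.inl (.inr (t w, w))) = 1 := h6 w
      rw [h9]
      linear_combination q (.inr (.inr (.inr w))) * h8
    funext x
    rcases x with (⟨u, m⟩ | ⟨m, w⟩) | m | u | w
    · simp only [nG, nF]
      rw [e1 u]
      have h7 := mul_iv (hm m)
      have h8 := mul_iv (hu u)
      have h9 := mul_iv (hm (l u))
      linear_combination (q (.inl (.inl (u, m))) *
        (q (.inr (.inr (.inl u))) * iv (q (.inr (.inr (.inl u))))) *
        (q (.inr (.inl (l u))) * iv (q (.inr (.inl (l u)))))) * h7 + (q (.inl (.inl (u, m))) *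
        (q (.inr (.inl (l u))) * iv (q (.inr (.inl (l u)))))) * h8 + q (.inl (.inl (u, m))) * h9
    · simp only [nG, nF]
      rw [e2 w]
      have h7 := mul_iv (hm m)
      have h8 := mul_iv (hw w)
      have h9 := mul_iv (hm (t w))
      linear_combination (q (.inl (.inr (m, w))) *
        (q (.inr (.inr (.inr w))) * iv (q (.inr (.inr (.inr w))))) *
        (q (.inr (.inl (t w))) * iv (q (.inr (.inl (t w)))))) * h7 + (q (.inl (.inr (m, w))) *
        (q (.inr (.inl (t w))) * iv (q (.inr (.inl (t w)))))) * h8 + q (.inl (.inr (m, w))) * h9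
    · rfl
    · exact e1 u
    · exact e2 w

/-- from the product systems to the normalised product systems -/
theorem hol_npz (hP : Op sep P) [Finite U] [Finite W] (D : Dat U M W) (ζ : W → Prop) (l : U → M)
    (t : W → M) (h : Hol P (pz R (D.up ζ))) : Hol P (npz R D ζ l t) :=
  hP.step (repr_npz D ζ l t) (M ⊕ (U ⊕ W)) (lead D ζ l t) (bij_norm D ζ l t) h

end Pool.Agent.H43.PG
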