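import Pool.Agent.H81.RZ.Gad
import Pool.Agent.H43.PG.Pz

/-!
# Systems of additions and multiplications inside products of two matrices with prescribed zeros
-/

set_option autoImplicit false

open CategoryTheory AlgebraicGeometry MvPolynomial Pool.Agent.Y116.UV Pool.Agent.H81.RZ

namespace Pool.Agent.H43.PG

/-- the columns of the first matrix -/
inductive Md (V E : Type) : Type
  | one
  | ko
  | n (v : V)
  | l (e : E)
  | r (e : E)
  | k (e : E)
  deriving DecidableEq, Fintype

/-- pairs of such columns -/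
inductive Pr (E : Type) : Type
  | pl (e : E)
  | pr (e : E)
  | pk (e : E)
  | po1
  | po2
  | plr (e : E)
  | prn (e : E)
  | por (e : E)
  | plk (e : E)
  deriving DecidableEq, Fintype

/-- the rows of the first matrix -/
inductive Ri (E : Type) : Type
  | c (π : Pr E)
  | g (e : E)
  | w (e : E)
  | m (e : E)
  deriving DecidableEq, Fintype

/-- the columns of the second matrix -/
inductive Ci (E : Type) : Type
  | X
  | D (π : Pr E)
  | T (e : E)
  deriving DecidableEq, Fintype

variable {V E : Type} (Y : Sys V E)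

/-- the first element of a pair -/
def ps1 : Pr E → Md V E
  | .pl e => .l e
  | .pr e => .r e
  | .pk e => .k e
  | .po1 => .one
  | .po2 => .ko
  | .plr e => .l e
  | .prn e => .r e
  | .por _ => .one
  | .plk e => .l e

/-- the second element of a pair -/
def pt1 : Pr E → Md V E
  | .pl e => .n (Y.a e)
  | .pr e => .n (Y.b e)
  | .pk e => .n (Y.c e)
  | .po1 => .ko
  | .po2 => .n Y.o
  | .plr e => .r e
  | .prn e => .n (Y.c e)
  | .por e => .r e
  | .plk e => .k e

lemma ps1_ne (π : Pr E) : ps1 π ≠ pt1 Y π := by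
  cases π <;> simp [ps1, pt1]

/-- the pairs with opposite values of the variables -/
def lnk : Pr E → Prop
  | .pl _ => True
  | .pr _ => True
  | .pk _ => True
  | .po1 => True
  | .po2 => True
  | _ => False

/-- the matrices of a system -/
def sd : Dat (Ri E) (Md V E) (Ci E) where
  α u m := match u with
    | .c π => m = ps1 π ∨ m = pt1 Y π
    | .g e => m = .l e ∨ (Y.k e = true ∧ (m = .r e ∨ m = .n (Y.c e)))
    | .w e => m = .l e ∨ (Y.k e = false ∧ m = .one)
    | .m e => m = .k e ∨ (Y.k e = false ∧ m = .r e)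
  β m w := match w with
    | .X => True
    | .D π => m = ps1 π ∨ m = pt1 Y π
    | .T e => m = .one ∨ (Y.k e = false ∧ (m = .l e ∨ m = .r e ∨ m = .k e))
  ε u w := match u, w with
    | .c π, .D π' => π = π'
    | .c π, .X => lnk π
    | .c π, .T e => Y.k e = false ∧ (π = .por e ∨ π = .plk e)
    | .g e, .D π => Y.k e = true ∧ (π = .plr e ∨ π = .prn e)
    | .g e, .X => Y.k e = true
    | .g _, .T _ => False
    | .w e, .X => Y.k e = false
    | .w e, .T e' => Y.k e = false ∧ e = e'
    | .w _, .D _ => False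
    | .m e, .X => Y.k e = false
    | .m e, .T e' => Y.k e = false ∧ e = e'
    | .m _, .D _ => False

/-- the columns with sum zero -/
def sz : Ci E → Prop
  | .D _ => True
  | _ => False

/-- the normalised entries of the rows -/
def sl : Ri E → Md V E
  | .c π => ps1 π
  | .g e => .l e
  | .w e => .l e
  | .m e => .k e

/-- the normalised entries of the columns -/
def st : Ci E → Md V E
  | .X => .one
  | .D π => ps1 π
  | .T _ => .one

section sums

variable {C : Type} [CommRing C] [Fintype V] [Fintype E] [DecidableEq V] [DecidableEq E]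

omit [DecidableEq V] [DecidableEq E] in
lemma sum2 {f : Md V E → C} (a b : Md V E) (hab : a ≠ b) (h : ∀ m, m ≠ a → m ≠ b → f m = 0) :
    ∑ m, f m = f a + f b :=
  Fintype.sum_eq_add a b hab fun m hm => h m hm.1 hm.2

lemma sum3 {f : Md V E → C} (a b c : Md V E) (hab : a ≠ b) (hac : a ≠ c) (hbc : b ≠ c)
    (h : ∀ m, m ≠ a → m ≠ b → m ≠ c → f m = 0) : ∑ m, f m = f a + f b + f c := by
  have h1 : ∀ m, f m = (if m = a then f a else 0) + (if m = b then f b else 0) +
      (if m = c then f c else 0) := by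
    intro m
    by_cases ha : m = a
    · subst ha
      simp [hab, hac]
    · by_cases hb : m = b
      · subst hb
        simp [ha, hbc]
      · by_cases hc : m = c
        · subst hc
          simp [ha, hb]
        · simp [ha, hb, hc, h m ha hb hc]
  rw [Finset.sum_congr rfl fun m _ => h1 m]
  simp [Finset.sum_add_distrib]

end sums

variable [DecidableEq V] [DecidableEq E] {C : Type} [CommRing C]

/-- the values of the variables -/
def xv (x : V → C) : Md V E → C
  | .one => 1
  | .ko => -1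
  | .n v => - x v
  | .l e => x (Y.a e)
  | .r e => x (Y.b e)
  | .k e => x (Y.c e)

/-- the first matrix -/
def rv (x : V → C) (u : Ri E) (m : Md V E) : C := match u with
  | .c π => if m = ps1 π ∨ m = pt1 Y π then 1 else 0
  | .g e => if m = .l e ∨ (Y.k e = true ∧ (m = .r e ∨ m = .n (Y.c e))) then 1 else 0
  | .w e => if m = .l e then 1 else if Y.k e = false ∧ m = .one then - x (Y.a e) else 0
  | .m e => if m = .k e then 1 else if Y.k e = false ∧ m = .r e then - x (Y.a e) else 0

/-- the second matrix -/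
def cv (x : V → C) (m : Md V E) (w : Ci E) : C := match w with
  | .X => xv Y x m
  | .D π => if m = ps1 π then 1 else if m = pt1 Y π then -1 else 0
  | .T e => if m = .one then 1 else if Y.k e = false ∧ m = .l e then x (Y.a e) else
      if Y.k e = false ∧ m = .r e then -1 else if Y.k e = false ∧ m = .k e then - x (Y.a e) else 0

/-- the matrices of a solution -/
def sG (x : V → C) : (Ri E × Md V E) ⊕ (Md V E × Ci E) → C
  | .inl e => rv Y x e.1 e.2
  | .inr e => cv Y x e.1 e.2

section facts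

variable [Fintype V] [Fintype E] {R : Type} [CommRing R] [Algebra R C]
  {p : (Ri E × Md V E) ⊕ (Md V E × Ci E) → C} (h : (npz R (sd Y) sz sl st).pts C p)

include h

lemma f_D (π : Pr E) : p (.inr (pt1 Y π, .D π)) = -1 := by
  obtain ⟨⟨h1, h2, h3⟩, h4, h5, h6⟩ := h
  have h7 := h4 (.D π) trivial
  rw [sum2 (ps1 π) (pt1 Y π) (ps1_ne Y π) fun m ha hb => h2 m (.D π) (by rintro (h | h); exacts [ha h, hb h])]
    at h7
  have h8 : p (.inr (ps1 π, .D π)) = 1 := h6 (.D π)
  rw [h8] at h7
  linear_combination h7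

lemma f_row2 (π : Pr E) (w : Ci E) (hw : (sd Y).ε (.c π) w) :
    p (.inr (ps1 π, w)) + p (.inl (.c π, pt1 Y π)) * p (.inr (pt1 Y π, w)) = 0 := by
  obtain ⟨⟨h1, h2, h3⟩, h4, h5, h6⟩ := h
  have h7 := h3 (.c π) w hw
  rw [sum2 (ps1 π) (pt1 Y π) (ps1_ne Y π) fun m ha hb => by
    rw [h1 (.c π) m (by rintro (h | h); exacts [ha h, hb h]), zero_mul]] at h7
  have h8 : p (.inl (.c π, ps1 π)) = 1 := h5 (.c π)
  rw [h8, one_mul] at h7
  exact h7

lemma f_c (π : Pr E) : p (.inl (.c π, pt1 Y π)) = 1 := by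
  have h1 := f_row2 Y h π (.D π) rfl
  have h2 : p (.inr (ps1 π, .D π)) = 1 := h.2.2.2 (.D π)
  rw [f_D Y h, h2] at h1
  linear_combination - h1

lemma f_lnk (π : Pr E) (w : Ci E) (hw : (sd Y).ε (.c π) w) :
    p (.inr (ps1 π, w)) + p (.inr (pt1 Y π, w)) = 0 := by
  have h1 := f_row2 Y h π w hw
  rwa [f_c Y h, one_mul] at h1

lemma f_one : p (.inr (.one, .X)) = 1 := h.2.2.2 .X

lemma f_ko : p (.inr (.ko, .X)) = -1 := by
  have h1 := f_lnk Y h .po1 .X trivial
  simp only [ps1, pt1] at h1
  rw [f_one Y h] at h1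
  linear_combination h1

lemma f_no : p (.inr (.n Y.o, .X)) = 1 := by
  have h1 := f_lnk Y h .po2 .X trivial
  simp only [ps1, pt1] at h1
  rw [f_ko Y h] at h1
  linear_combination h1

lemma f_l (e : E) : p (.inr (.l e, .X)) = - p (.inr (.n (Y.a e), .X)) := by
  have h1 := f_lnk Y h (.pl e) .X trivial
  simp only [ps1, pt1] at h1
  linear_combination h1

lemma f_r (e : E) : p (.inr (.r e, .X)) = - p (.inr (.n (Y.b e), .X)) := by
  have h1 := f_lnk Y h (.pr e) .X trivial
  simp only [ps1, pt1] at h1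
  linear_combination h1

lemma f_k (e : E) : p (.inr (.k e, .X)) = - p (.inr (.n (Y.c e), .X)) := by
  have h1 := f_lnk Y h (.pk e) .X trivial
  simp only [ps1, pt1] at h1
  linear_combination h1

lemma f_gl (e : E) : p (.inl (.g e, .l e)) = 1 := h.2.2.1 (.g e)

/-- the rows of the additions -/
lemma f_grow (e : E) (he : Y.k e = true) (w : Ci E) (hw : (sd Y).ε (.g e) w) :
    p (.inr (.l e, w)) + p (.inl (.g e, .r e)) * p (.inr (.r e, w)) +
      p (.inl (.g e, .n (Y.c e))) * p (.inr (.n (Y.c e), w)) = 0 := by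
  have h7 := h.1.2.2 (.g e) w hw
  rw [sum3 (.l e) (.r e) (.n (Y.c e)) (by simp) (by simp) (by simp) fun m ha hb hc => by
    rw [h.1.1 (.g e) m (by rintro (h | ⟨-, h | h⟩); exacts [ha h, hb h, hc h]), zero_mul],
    f_gl Y h, one_mul] at h7
  exact h7

lemma f_D1 (π : Pr E) : p (.inr (ps1 π, .D π)) = 1 := h.2.2.2 (.D π)

lemma f_D0 (π : Pr E) (m : Md V E) (h1 : m ≠ ps1 π) (h2 : m ≠ pt1 Y π) :
    p (.inr (m, .D π)) = 0 := h.1.2.1 m (.D π) (by rintro (h | h); exacts [h1 h, h2 h])

lemma f_gr (e : E) (he : Y.k e = true) : p (.inl (.g e, .r e)) = 1 := by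
  have h1 := f_grow Y h e he (.D (.plr e)) ⟨he, Or.inl rfl⟩
  have h2 : p (.inr (.l e, .D (.plr e))) = 1 := f_D1 Y h (.plr e)
  have h3 : p (.inr (.r e, .D (.plr e))) = -1 := f_D Y h (.plr e)
  have h4 : p (.inr (.n (Y.c e), .D (.plr e))) = 0 :=
    f_D0 Y h (.plr e) _ (by simp [ps1]) (by simp [pt1])
  rw [h2, h3, h4] at h1
  linear_combination - h1

lemma f_gn (e : E) (he : Y.k e = true) : p (.inl (.g e, .n (Y.c e))) = 1 := by
  have h1 := f_grow Y h e he (.D (.prn e)) ⟨he, Or.inr rfl⟩
  have h2 : p (.inr (.r e, .D (.prn e))) = 1 := f_D1 Y h (.prn e)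
  have h3 : p (.inr (.n (Y.c e), .D (.prn e))) = -1 := f_D Y h (.prn e)
  have h4 : p (.inr (.l e, .D (.prn e))) = 0 :=
    f_D0 Y h (.prn e) _ (by simp [ps1]) (by simp [pt1])
  rw [h2, h3, h4, f_gr Y h e he] at h1
  linear_combination - h1

lemma f_add (e : E) (he : Y.k e = true) : p (.inr (.l e, .X)) + p (.inr (.r e, .X)) +
    p (.inr (.n (Y.c e), .X)) = 0 := by
  have h1 := f_grow Y h e he .X he
  rw [f_gr Y h e he, f_gn Y h e he] at h1
  linear_combination h1

lemma f_wrow (e : E) (he : Y.k e = false) (w : Ci E) (hw : (sd Y).ε (.w e) w) :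
    p (.inr (.l e, w)) + p (.inl (.w e, .one)) * p (.inr (.one, w)) = 0 := by
  have h7 := h.1.2.2 (.w e) w hw
  have h8 : p (.inl (.w e, .l e)) = 1 := h.2.2.1 (.w e)
  rw [sum2 (.l e) .one (by simp) fun m ha hb => by
    rw [h.1.1 (.w e) m (by rintro (h | ⟨-, h⟩); exacts [ha h, hb h]), zero_mul],
    h8, one_mul] at h7
  exact h7

lemma f_w (e : E) (he : Y.k e = false) : p (.inl (.w e, .one)) = - p (.inr (.l e, .X)) := by
  have h1 := f_wrow Y h e he .X he
  rw [f_one Y h] at h1
  linear_combination h1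

lemma f_T1 (e : E) : p (.inr (.one, .T e)) = 1 := h.2.2.2 (.T e)

lemma f_Tl (e : E) (he : Y.k e = false) : p (.inr (.l e, .T e)) = p (.inr (.l e, .X)) := by
  have h1 := f_wrow Y h e he (.T e) ⟨he, rfl⟩
  rw [f_T1 Y h, f_w Y h e he] at h1
  linear_combination h1

lemma f_Tr (e : E) (he : Y.k e = false) : p (.inr (.r e, .T e)) = -1 := by
  have h1 := f_lnk Y h (.por e) (.T e) ⟨he, Or.inl rfl⟩
  simp only [ps1, pt1] at h1
  rw [f_T1 Y h] at h1
  linear_combination h1

lemma f_Tk (e : E) (he : Y.k e = false) : p (.inr (.k e, .T e)) = - p (.inr (.l e, .X)) := by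
  have h1 := f_lnk Y h (.plk e) (.T e) ⟨he, Or.inr rfl⟩
  simp only [ps1, pt1] at h1
  rw [f_Tl Y h e he] at h1
  linear_combination h1

lemma f_mrow (e : E) (he : Y.k e = false) (w : Ci E) (hw : (sd Y).ε (.m e) w) :
    p (.inr (.k e, w)) + p (.inl (.m e, .r e)) * p (.inr (.r e, w)) = 0 := by
  have h7 := h.1.2.2 (.m e) w hw
  have h8 : p (.inl (.m e, .k e)) = 1 := h.2.2.1 (.m e)
  rw [sum2 (.k e) (.r e) (by simp) fun m ha hb => by
    rw [h.1.1 (.m e) m (by rintro (h | ⟨-, h⟩); exacts [ha h, hb h]), zero_mul],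
    h8, one_mul] at h7
  exact h7

lemma f_m (e : E) (he : Y.k e = false) : p (.inl (.m e, .r e)) = - p (.inr (.l e, .X)) := by
  have h1 := f_mrow Y h e he (.T e) ⟨he, rfl⟩
  rw [f_Tk Y h e he, f_Tr Y h e he] at h1
  linear_combination - h1

lemma f_mul (e : E) (he : Y.k e = false) :
    p (.inr (.k e, .X)) = p (.inr (.l e, .X)) * p (.inr (.r e, .X)) := by
  have h1 := f_mrow Y h e he .X he
  rw [f_m Y h e he] at h1
  linear_combination h1

end facts

end Pool.Agent.H43.PG
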