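import Pool.Agent.H43.PG.Gad

/-!
# Systems of additions and multiplications inside products of two matrices with prescribed zeros
-/

set_option autoImplicit false

open CategoryTheory AlgebraicGeometry MvPolynomial Pool.Agent.Y116.UV Pool.Agent.H81.RZ

namespace Pool.Agent.H43.PG

variable {V E : Type} (Y : Sys V E) [DecidableEq V] [DecidableEq E] [Fintype V] [Fintype E]
  {R : Type} [CommRing R]

section mem

variable {C : Type} [CommRing C] (x : V → C)

/-- the product of a row and a column -/
lemma row_c (π : Pr E) (w : Ci E) : ∑ m, rv Y x (.c π) m * cv Y x m w =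
    cv Y x (ps1 π) w + cv Y x (pt1 Y π) w := by
  have hne := ps1_ne Y π
  rw [sum2 (ps1 π) (pt1 Y π) hne fun m ha hb => by simp [rv, ha, hb]]
  simp [rv]

lemma row_g (e : E) (he : Y.k e = true) (w : Ci E) : ∑ m, rv Y x (.g e) m * cv Y x m w =
    cv Y x (.l e) w + cv Y x (.r e) w + cv Y x (.n (Y.c e)) w := by
  rw [sum3 (.l e) (.r e) (.n (Y.c e)) (by simp) (by simp) (by simp)
    fun m ha hb hc => by simp [rv, ha, hb, hc]]
  simp [rv, he]

lemma row_w (e : E) (he : Y.k e = false) (w : Ci E) : ∑ m, rv Y x (.w e) m * cv Y x m w =
    cv Y x (.l e) w - x (Y.a e) * cv Y x .one w := by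
  rw [sum2 (.l e) .one (by simp) fun m ha hb => by simp [rv, ha, hb]]
  simp [rv, he]
  ring

lemma row_m (e : E) (he : Y.k e = false) (w : Ci E) : ∑ m, rv Y x (.m e) m * cv Y x m w =
    cv Y x (.k e) w - x (Y.a e) * cv Y x (.r e) w := by
  rw [sum2 (.k e) (.r e) (by simp) fun m ha hb => by simp [rv, ha, hb]]
  simp [rv, he]
  ring

variable {x}

lemma mem_sG [Algebra R C] (h : (slp R Y).pts C x) : (npz R (sd Y) sz sl st).pts C (sG Y x) := by
  obtain ⟨h0, h1⟩ := h
  refine ⟨⟨?_, ?_, ?_⟩, ?_, ?_, ?_⟩
  · intro u m hu
    rcases u with π | e | e | e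
    · exact if_neg hu
    · exact if_neg hu
    · change (if m = .l e then (1 : C) else if Y.k e = false ∧ m = .one then - x (Y.a e) else 0) = 0
      rw [if_neg fun h => hu (Or.inl h), if_neg fun h => hu (Or.inr h)]
    · change (if m = .k e then (1 : C) else if Y.k e = false ∧ m = .r e then - x (Y.a e) else 0) = 0
      rw [if_neg fun h => hu (Or.inl h), if_neg fun h => hu (Or.inr h)]
  · intro m w hw
    rcases w with _ | π | e
    · exact absurd trivial hw
    · change (if m = ps1 π then (1 : C) else if m = pt1 Y π then -1 else 0) = 0
      rw [if_neg fun h => hw (Or.inl h), if_neg fun h => hw (Or.inr h)]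
    · change (if m = .one then (1 : C) else if Y.k e = false ∧ m = .l e then x (Y.a e) else
        if Y.k e = false ∧ m = .r e then -1 else if Y.k e = false ∧ m = .k e then - x (Y.a e)
        else 0) = 0
      rw [if_neg fun h => hw (Or.inl h), if_neg fun h => hw (Or.inr ⟨h.1, Or.inl h.2⟩),
        if_neg fun h => hw (Or.inr ⟨h.1, Or.inr (Or.inl h.2)⟩),
        if_neg fun h => hw (Or.inr ⟨h.1, Or.inr (Or.inr h.2)⟩)]
  · intro u w hu
    change ∑ m, rv Y x u m * cv Y x m w = 0
    rcases u with π | e | e | e
    · rw [row_c]
      rcases w with _ | π' | e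
      · rcases π with e | e | e | _ | _ | e | e | e | e
        · simp [cv, xv, ps1, pt1]
        · simp [cv, xv, ps1, pt1]
        · simp [cv, xv, ps1, pt1]
        · simp [cv, xv, ps1, pt1]
        · simp [cv, xv, ps1, pt1, h0]
        · exact absurd hu id
        · exact absurd hu id
        · exact absurd hu id
        · exact absurd hu id
      · have h2 : π = π' := hu
        subst h2
        have hne := ps1_ne Y π
        simp [cv, hne.symm]
      · obtain ⟨he, rfl | rfl⟩ := hu
        · simp [cv, ps1, pt1, he]
        · simp [cv, ps1, pt1, he]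
    · rcases w with _ | π | e'
      · have he : Y.k e = true := hu
        rw [row_g Y x e he]
        have h2 := h1 e
        rw [if_pos he] at h2
        simp only [cv, xv]
        linear_combination h2
      · obtain ⟨he, rfl | rfl⟩ := hu
        · rw [row_g Y x e he]
          simp [cv, ps1, pt1]
        · rw [row_g Y x e he]
          simp [cv, ps1, pt1]
      · exact absurd hu id
    · rcases w with _ | π | e'
      · have he : Y.k e = false := hu
        rw [row_w Y x e he]
        simp [cv, xv]
      · exact absurd hu id
      · obtain ⟨he, rfl⟩ := hu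
        rw [row_w Y x e he]
        simp [cv, he]
    · rcases w with _ | π | e'
      · have he : Y.k e = false := hu
        rw [row_m Y x e he]
        have h2 := h1 e
        rw [he] at h2
        simp only [Bool.false_eq_true, if_false] at h2
        simp only [cv, xv]
        linear_combination - h2
      · exact absurd hu id
      · obtain ⟨he, rfl⟩ := hu
        rw [row_m Y x e he]
        simp [cv, he]
  · intro w hw
    rcases w with _ | π | e
    · exact absurd hw id
    · change ∑ m, cv Y x m (.D π) = 0
      have hne := ps1_ne Y π
      rw [sum2 (ps1 π) (pt1 Y π) hne fun m ha hb => by simp [cv, ha, hb]]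
      simp [cv, hne.symm]
    · exact absurd hw id
  · intro u
    rcases u with π | e | e | e
    · exact if_pos (Or.inl rfl)
    · exact if_pos (Or.inl rfl)
    · exact if_pos rfl
    · exact if_pos rfl
  · intro w
    rcases w with _ | π | e
    · rfl
    · exact if_pos rfl
    · simp [sG, cv, st]

end mem

lemma bij_sys : Bij (npz R (sd Y) sz sl st) (slp R Y) (fun _ _ _ p v => - p (.inr (.n v, .X)))
    (fun _ _ _ x => sG Y x) where
  natF f p _ v := map_neg f _
  natG f x _ s := by
    rcases s with ⟨u, m⟩ | ⟨m, w⟩
    · rcases u with π | e | e | e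
      · change f (if _ then 1 else 0) = if _ then 1 else 0
        split_ifs <;> simp
      · change f (if _ then 1 else 0) = if _ then 1 else 0
        split_ifs <;> simp
      · change f (if _ then 1 else if _ then - x (Y.a e) else 0) =
          if _ then 1 else if _ then - f (x (Y.a e)) else 0
        split_ifs <;> simp
      · change f (if _ then 1 else if _ then - x (Y.a e) else 0) =
          if _ then 1 else if _ then - f (x (Y.a e)) else 0
        split_ifs <;> simp
    · rcases w with _ | π | e
      · rcases m with _ | _ | v | e | e | e
        · exact map_one f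
        · exact (map_neg f 1).trans (by rw [map_one]; rfl)
        · exact map_neg f _
        · rfl
        · rfl
        · rfl
      · change f (if _ then 1 else if _ then -1 else 0) = if _ then 1 else if _ then -1 else 0
        split_ifs <;> simp
      · change f (if _ then 1 else if _ then x (Y.a e) else if _ then -1 else
          if _ then - x (Y.a e) else 0) = if _ then 1 else if _ then f (x (Y.a e)) else
          if _ then -1 else if _ then - f (x (Y.a e)) else 0
        split_ifs <;> simp
  memF C _ _ p h := by
    refine ⟨congrArg Neg.neg (f_no Y h), fun e => ?_⟩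
    beta_reduce
    by_cases he : Y.k e = true
    · rw [if_pos he]
      have h1 := f_add Y h e he
      rw [f_l Y h, f_r Y h] at h1
      linear_combination h1
    · rw [if_neg he]
      have he' : Y.k e = false := by simpa using he
      have h1 := f_mul Y h e he'
      rw [f_l Y h, f_r Y h, f_k Y h] at h1
      linear_combination - h1
  memG C _ _ x h := mem_sG Y h
  GF C _ _ p h := by
    funext s
    rcases s with ⟨u, m⟩ | ⟨m, w⟩
    · rcases u with π | e | e | e
      · change (if m = ps1 π ∨ m = pt1 Y π then (1 : C) else 0) = _
        split_ifs with h1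
        · rcases h1 with rfl | rfl
          · exact (h.2.2.1 (.c π)).symm
          · exact (f_c Y h π).symm
        · exact (h.1.1 (.c π) m h1).symm
      · change (if m = .l e ∨ (Y.k e = true ∧ (m = .r e ∨ m = .n (Y.c e))) then (1 : C) else 0) = _
        split_ifs with h1
        · rcases h1 with rfl | ⟨he, rfl | rfl⟩
          · exact (h.2.2.1 (.g e)).symm
          · exact (f_gr Y h e he).symm
          · exact (f_gn Y h e he).symm
        · exact (h.1.1 (.g e) m h1).symm
      · change (if m = .l e then (1 : C) else if Y.k e = false ∧ m = .one then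
          - (- p (.inr (.n (Y.a e), .X))) else 0) = _
        split_ifs with h1 h2
        · subst h1
          exact (h.2.2.1 (.w e)).symm
        · obtain ⟨he, rfl⟩ := h2
          rw [f_w Y h e he, f_l Y h]
        · exact (h.1.1 (.w e) m (by rintro (h3 | h3); exacts [h1 h3, h2 h3])).symm
      · change (if m = .k e then (1 : C) else if Y.k e = false ∧ m = .r e then
          - (- p (.inr (.n (Y.a e), .X))) else 0) = _
        split_ifs with h1 h2
        · subst h1
          exact (h.2.2.1 (.m e)).symm
        · obtain ⟨he, rfl⟩ := h2
          rw [f_m Y h e he, f_l Y h]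
        · exact (h.1.1 (.m e) m (by rintro (h3 | h3); exacts [h1 h3, h2 h3])).symm
    · rcases w with _ | π | e
      · rcases m with _ | _ | v | e | e | e
        · exact (f_one Y h).symm
        · exact (f_ko Y h).symm
        · exact neg_neg _
        · exact (f_l Y h e).symm
        · exact (f_r Y h e).symm
        · exact (f_k Y h e).symm
      · change (if m = ps1 π then (1 : C) else if m = pt1 Y π then -1 else 0) = _
        split_ifs with h1 h2
        · subst h1
          exact (f_D1 Y h π).symm
        · subst h2
          exact (f_D Y h π).symm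
        · exact (f_D0 Y h π m h1 h2).symm
      · change (if m = .one then (1 : C) else if Y.k e = false ∧ m = .l e then
          - p (.inr (.n (Y.a e), .X)) else if Y.k e = false ∧ m = .r e then -1 else
          if Y.k e = false ∧ m = .k e then - (- p (.inr (.n (Y.a e), .X))) else 0) = _
        split_ifs with h1 h2 h3 h4
        · subst h1
          exact (f_T1 Y h e).symm
        · obtain ⟨he, rfl⟩ := h2
          rw [f_Tl Y h e he, f_l Y h]
        · obtain ⟨he, rfl⟩ := h3
          exact (f_Tr Y h e he).symm
        · obtain ⟨he, rfl⟩ := h4
          rw [f_Tk Y h e he, f_l Y h]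
        · refine (h.1.2.1 m (.T e) ?_).symm
          rintro (h5 | ⟨h5, h6 | h6 | h6⟩)
          exacts [h1 h5, h2 ⟨h5, h6⟩, h3 ⟨h5, h6⟩, h4 ⟨h5, h6⟩]
  FG C _ _ x _ := by
    funext v
    exact neg_neg (x v)

/-- **From products of two matrices with prescribed zeros to systems of additions and
multiplications.** -/
theorem hol_slp_of_pz {sep : Prop} {P : Sch R → Prop} (hP : Op sep P)
    (h : Hol P (pz R ((sd Y).up sz))) : Hol P (slp R Y) :=
  (hol_npz hP (sd Y) sz sl st h).trans (bij_sys Y)

end Pool.Agent.H43.PG
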